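import Pool.Agent.Lib_helper47.INS.Four

/-!
Profinite groups in which `x ^ n = 1` has positive measure without holding on a coset of an open
subgroup, for every `n = 4 mod 8`.

The group is the product over `r` of finite `2`-groups `N_r ⋊ C_2^(k+r)` of exponent `8`, where every
element outside `N_r` has fourth power `1` and some element of `N_r` has not: the set of the
`x` with `x ^ 4 ≠ 1` lies in the union of the kernels of the projections to `C_2^(k+r)`, of
measure at most `∑ 2^(-k-r)`.
-/

set_option autoImplicit false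

namespace Pool.Agent.Results.MP_b7e8ae_al.ExponentFour

open MeasureTheory

/-- Let `n` be congruent to `4` modulo `8` (for instance `n = 4`), and let `ε > 0`. There is a
profinite group `G` such that `x ^ 8 = 1` for all `x` in `G`, such that for the Haar probability
measure `μ` of `G` (on the Borel sets) the set `{x | x ^ n = 1}` has measure at least `1 - ε`, and
such that no coset `t H` of an open subgroup `H` is contained in this set. -/
theorem result (n : ℕ) (hn : n % 8 = 4) (ε : ℝ) (hε : 0 < ε) :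
    ∃ G : ProfiniteGrp.{0}, (∀ x : G, x ^ 8 = 1) ∧
      (∀ [MeasurableSpace G] [BorelSpace G] (μ : Measure G) [μ.IsHaarMeasure]
        [IsProbabilityMeasure μ], 1 - ε ≤ (μ {x : G | x ^ n = 1}).toReal) ∧
      ∀ H : Subgroup G, IsOpen (H : Set G) → ∀ t : G, ∃ h ∈ H, (t * h) ^ n ≠ 1 := by
  obtain ⟨k, hk⟩ := exists_pow_lt_of_lt_one hε (by norm_num : (2⁻¹ : ℝ) < 1)
  refine ⟨ProfiniteGrp.of (Pool.Agent.INS.Four.GP (k + 1)),
    Pool.Agent.INS.Four.GP_pow_eight (k + 1), ?_, ?_⟩
  · intro _ _ μ _ _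
    have h1 := Pool.Agent.INS.Four.measure_ge k μ
    have h2 : {x : (ProfiniteGrp.of (Pool.Agent.INS.Four.GP (k + 1)) : ProfiniteGrp.{0}) |
        x ^ n = 1} = {x : Pool.Agent.INS.Four.GP (k + 1) | x ^ 4 = 1} := by
      ext x
      exact Pool.Agent.INS.Four.pow_iff (Pool.Agent.INS.Four.GP_pow_eight (k + 1)) n hn x
    rw [h2]
    have hne : μ {x : Pool.Agent.INS.Four.GP (k + 1) | x ^ 4 = 1} ≠ ⊤ := measure_ne_top _ _
    have h3 : ((1 : ENNReal)).toReal ≤
        (μ {x : Pool.Agent.INS.Four.GP (k + 1) | x ^ 4 = 1} + 2⁻¹ ^ k).toReal :=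
      ENNReal.toReal_mono (ENNReal.add_ne_top.2 ⟨hne, ENNReal.pow_ne_top (by norm_num)⟩) h1
    rw [ENNReal.toReal_add hne (ENNReal.pow_ne_top (by norm_num)), ENNReal.toReal_pow,
      ENNReal.toReal_inv, ENNReal.toReal_one] at h3
    have h4 : (2 : ENNReal).toReal = 2 := rfl
    rw [h4] at h3
    linarith
  · intro H hH t
    obtain ⟨h, hh, hne⟩ := Pool.Agent.INS.Four.no_coset (k + 1) H hH t
    exact ⟨h, hh, fun e => hne
      ((Pool.Agent.INS.Four.pow_iff (Pool.Agent.INS.Four.GP_pow_eight (k + 1)) n hn _).1 e)⟩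

end Pool.Agent.Results.MP_b7e8ae_al.ExponentFour
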